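import Mathlib

set_option autoImplicit false

namespace Pool.Agent.Results.MP_bbf25a_nt.Yes

/-- The primitive wavevector set `Λ'`. -/
def Lam : Set (ℤ × ℤ) := {p | ∃ x y : ℤ,
  x * (p.1 ^ 2 + p.2 ^ 2) * (p.1 ^ 2 + p.2 ^ 2 - 2 * p.1 * x - 2 * p.2 * y) =
    p.1 * (x ^ 2 + y ^ 2) * (x ^ 2 + y ^ 2 - 2 * p.1 * x - 2 * p.2 * y) ∧ p.1 * x * (p.1 - x) ≠ 0 ∧
    Int.gcd (Int.gcd p.1 p.2) (Int.gcd x y) = 1}

theorem pell (a : ℤ) (ha : a ≠ 0) (N : ℕ) :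
    ∃ p T : ℤ, p ^ 2 - p = (a ^ 2 + 1) * T ^ 2 ∧ a ∣ T ∧ 1 ≤ p ∧ (N : ℤ) ≤ T := by
  induction N with
  | zero => exact ⟨1, 0, by ring, dvd_zero _, le_rfl, le_rfl⟩
  | succ N ih =>
    obtain ⟨p, T, h1, h2, h3, h4⟩ := ih
    obtain ⟨c, hc, c1, c2⟩ : ∃ c : ℤ, a ^ 2 = c ^ 2 ∧ 1 ≤ c ∧ a ∣ c :=
      ⟨|a|, (sq_abs a).symm, Int.one_le_abs ha, (dvd_abs _ _).2 dvd_rfl⟩
    have hT : 0 ≤ T := le_trans (by positivity) h4
    have : 0 ≤ 2 * p - 2 := by omega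
    rw [hc] at h1 ⊢
    refine ⟨c ^ 2 * (2 * p - 1) + p + 2 * c * (c ^ 2 + 1) * T, c * (2 * p - 1) + (2 * c ^ 2 + 1) * T,
      by linear_combination h1, dvd_add (c2.mul_right _) (h2.mul_left _), ?_, ?_⟩
    · have : 0 ≤ c ^ 2 * (2 * p - 1) := mul_nonneg (by positivity) (by omega)
      have : 0 ≤ 2 * c * (c ^ 2 + 1) * T := by positivity
      omega
    · push_cast
      nlinarith [mul_nonneg (sq_nonneg c) hT, mul_nonneg (sub_nonneg.2 c1) this]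

theorem result (a : ℤ) (ha : a ≠ 0) : {b : ℤ | (a, b) ∈ Lam}.Infinite := by
  refine Set.infinite_of_not_bddAbove fun ⟨B, hB⟩ => ?_
  obtain ⟨p, T, h1, ⟨v, hv⟩, h3, h4⟩ := pell a ha (B.toNat + 1)
  have hT : 1 ≤ T := by omega
  obtain ⟨n, rfl⟩ : ∃ n, p = n - T := ⟨p + T, by ring⟩
  obtain ⟨b, hb⟩ : ∃ b, b = 1 + (2 * n - 1) * T * (1 + a ^ 2) := ⟨_, rfl⟩
  have b1 : 2 * n ≤ b := by
    have : 1 ≤ T * (1 + a ^ 2) := by nlinarith [sq_nonneg a]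
    nlinarith
  have b2 : 2 * n ≤ T * b := by nlinarith
  have : b ≤ B := hB (a := b) ⟨a * (n - T * b), a ^ 2 * T + n * b, ?_, ?_, ?_⟩
  · omega
  · have h : a * (n - T * b) * (1 - 2 * n) =
        a * (a ^ 2 * T ^ 2 + n ^ 2) * (a ^ 2 * T ^ 2 + n ^ 2 - 2 * n) := by
      rw [hb]
      linear_combination (-a * (1 + (n ^ 2 - n - a ^ 2 * T ^ 2) + (2 * n - 1) * T)) * h1
    linear_combination (a ^ 2 + b ^ 2) ^ 2 * h
  · refine mul_ne_zero (mul_ne_zero ha (mul_ne_zero ha (by omega))) ?_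
    rw [show a - a * (n - T * b) = a * (1 - n + T * b) by ring]
    exact mul_ne_zero ha (by omega)
  · have : Int.gcd a b = 1 := Int.isCoprime_iff_gcd_eq_one.1
      ⟨-((2 * n - 1) * v * (1 + a ^ 2)), 1, by rw [hb, hv]; ring⟩
    simp [this]

end Pool.Agent.Results.MP_bbf25a_nt.Yes
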